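import Pool.Agent.R598.SY.Stm

/-!
# Symmetric submodels of generic extensions: basic facts
-/

set_option autoImplicit false
set_option linter.unusedSectionVars false

namespace Pool.Agent.R598.SY

open Pool.Agent.W868 Pool.Agent.W868.PName
open ZFSet (pair)

variable {P : Type} [Preorder P] [OrderTop P]

/-! ### Forced equality -/

theorem feq_trans {x y z : PName P} {p : P} (h1 : Feq x y p) (h2 : Feq y z p) : Feq x z p := by
  induction x using el_ind generalizing y z p with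
  | h x ih =>
    rw [feq_iff'] at h1 h2 ⊢
    constructor
    · intro a c ha q hq hqc
      obtain ⟨s1, hs1, b, d, hb, hd, e1⟩ := h1.1 a c ha q hq hqc
      obtain ⟨s2, hs2, w, e, hw, he, e2⟩ := h2.1 b d hb s1 (hs1.trans hq) hd
      exact ⟨s2, hs2.trans hs1, w, e, hw, he, ih a c ha (e1.mono hs2) e2⟩
    · intro w d hw q hq hqd
      obtain ⟨s1, hs1, b, c, hb, hc, e1⟩ := h2.2 w d hw q hq hqd
      obtain ⟨s2, hs2, a, e, ha, he, e2⟩ := h1.2 b c hb s1 (hs1.trans hq) hc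
      exact ⟨s2, hs2.trans hs1, a, e, ha, he, ih a e ha e2 (e1.mono hs2)⟩

theorem feq_dense {x y : PName P} {p : P} (h : ∀ q ≤ p, ∃ s ≤ q, Feq x y s) : Feq x y p := by
  rw [feq_iff']
  constructor
  · intro a c ha q hq hqc
    obtain ⟨s, hs, h1⟩ := h q hq
    obtain ⟨t, ht, w, d, hw, hd, e⟩ := (feq_iff'.1 h1).1 a c ha s le_rfl (hs.trans hqc)
    exact ⟨t, ht.trans hs, w, d, hw, hd, e⟩
  · intro a c ha q hq hqc
    obtain ⟨s, hs, h1⟩ := h q hq
    obtain ⟨t, ht, w, d, hw, hd, e⟩ := (feq_iff'.1 h1).2 a c ha s le_rfl (hs.trans hqc)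
    exact ⟨t, ht.trans hs, w, d, hw, hd, e⟩

theorem fmem_dense {x y : PName P} {p : P} (h : ∀ q ≤ p, ∃ s ≤ q, Fmem x y s) : Fmem x y p := by
  intro q hq
  obtain ⟨s, hs, h1⟩ := h q hq
  obtain ⟨t, ht, h2⟩ := h1 s le_rfl
  exact ⟨t, ht.trans hs, h2⟩

theorem fmem_congr {x y x' y' : PName P} {p : P} (hx : Feq x x' p) (hy : Feq y y' p)
    (h : Fmem x y p) : Fmem x' y' p := by
  rw [fmem_iff] at h ⊢
  intro q hq
  obtain ⟨s, hs, z, c, hz, hc, e⟩ := h q hq
  obtain ⟨t, ht, w, d, hw, hd, e'⟩ := (feq_iff'.1 hy).1 z c hz s (hs.trans hq) hc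
  exact ⟨t, ht.trans hs, w, d, hw, hd,
    feq_trans (hx.symm.mono ((ht.trans hs).trans hq)) (feq_trans (e.mono ht) e')⟩

theorem feq_of_el {x y : PName P} {p : P} (h : ∀ z c, El x z c ↔ El y z c) : Feq x y p := by
  rw [feq_iff']
  exact ⟨fun z c hz q _ hqc => ⟨q, le_rfl, z, c, (h z c).1 hz, hqc, Feq.refl _ _⟩,
    fun z c hz q _ hqc => ⟨q, le_rfl, z, c, (h z c).2 hz, hqc, Feq.refl _ _⟩⟩

/-! ### The action -/

theorem el_act {e : P ≃o P} {x z : PName P} {c : P} :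
    El (act e x) z c ↔ ∃ z' c', El x z' c' ∧ z = act e z' ∧ c = e c' := by
  cases x with
  | mk ι x d =>
    rw [act, el_mk]
    constructor
    · rintro ⟨i, rfl, rfl⟩
      exact ⟨x i, d i, ⟨i, rfl, rfl⟩, rfl, rfl⟩
    · rintro ⟨_, _, ⟨i, rfl, rfl⟩, rfl, rfl⟩
      exact ⟨i, rfl, rfl⟩

theorem act_mul (e f : P ≃o P) (x : PName P) : act (e * f) x = act e (act f x) := by
  induction x with
  | mk ι x c ih =>
    simp only [act, ih]
    rfl

theorem act_one (x : PName P) : act (1 : P ≃o P) x = x := by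
  induction x with
  | mk ι x c ih =>
    simp only [act, ih]
    rfl

theorem act_emp (e : P ≃o P) : act e (emp : PName P) = emp := by
  unfold emp act
  congr 1
  · funext i
    exact i.elim
  · funext i
    exact i.elim

theorem act_inv_act (e : P ≃o P) (x : PName P) : act e⁻¹ (act e x) = x := by
  rw [← act_mul, inv_mul_cancel, act_one]

theorem act_act_inv (e : P ≃o P) (x : PName P) : act e (act e⁻¹ x) = x := by
  rw [← act_mul, mul_inv_cancel, act_one]

theorem feq_act' {e : P ≃o P} {x y : PName P} {p : P} (h : Feq x y p) :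
    Feq (act e x) (act e y) (e p) := by
  induction x using el_ind generalizing y p with
  | h x ih =>
    rw [feq_iff'] at h ⊢
    constructor
    · intro a c ha q hq hqc
      obtain ⟨a, c, ha', rfl, rfl⟩ := el_act.1 ha
      obtain ⟨s, hs, w, d, hw, hd, h1⟩ := h.1 a c ha' (e.symm q)
        ((OrderIso.symm_apply_le e).2 hq) ((OrderIso.symm_apply_le e).2 hqc)
      exact ⟨e s, (OrderIso.le_symm_apply e).1 hs, act e w, e d, el_act.2 ⟨w, d, hw, rfl, rfl⟩,
        e.le_iff_le.2 hd, ih a c ha' h1⟩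
    · intro a c ha q hq hqc
      obtain ⟨a, c, ha', rfl, rfl⟩ := el_act.1 ha
      obtain ⟨s, hs, w, d, hw, hd, h1⟩ := h.2 a c ha' (e.symm q)
        ((OrderIso.symm_apply_le e).2 hq) ((OrderIso.symm_apply_le e).2 hqc)
      exact ⟨e s, (OrderIso.le_symm_apply e).1 hs, act e w, e d, el_act.2 ⟨w, d, hw, rfl, rfl⟩,
        e.le_iff_le.2 hd, ih w d hw h1⟩

theorem inv_app (e : P ≃o P) (p : P) : e⁻¹ (e p) = p := by
  rw [← RelIso.mul_apply, inv_mul_cancel]
  rfl

theorem app_inv (e : P ≃o P) (p : P) : e (e⁻¹ p) = p := by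
  rw [← RelIso.mul_apply, mul_inv_cancel]
  rfl

theorem feq_act {e : P ≃o P} {x y : PName P} {p : P} :
    Feq (act e x) (act e y) (e p) ↔ Feq x y p := by
  constructor
  · intro h
    have h1 := feq_act' (e := e⁻¹) h
    rwa [act_inv_act, act_inv_act, inv_app] at h1
  · exact feq_act'

theorem fmem_act' {e : P ≃o P} {x y : PName P} {p : P} (h : Fmem x y p) :
    Fmem (act e x) (act e y) (e p) := by
  rw [fmem_iff] at h ⊢
  intro q hq
  obtain ⟨s, hs, w, d, hw, hd, h1⟩ := h (e.symm q) ((OrderIso.symm_apply_le e).2 hq)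
  exact ⟨e s, (OrderIso.le_symm_apply e).1 hs, act e w, e d, el_act.2 ⟨w, d, hw, rfl, rfl⟩,
    e.le_iff_le.2 hd, feq_act' h1⟩

theorem fmem_act {e : P ≃o P} {x y : PName P} {p : P} :
    Fmem (act e x) (act e y) (e p) ↔ Fmem x y p := by
  constructor
  · intro h
    have h1 := fmem_act' (e := e⁻¹) h
    rwa [act_inv_act, act_inv_act, inv_app] at h1
  · exact fmem_act'

theorem act_check {e : P ≃o P} (he : e ⊤ = ⊤) (x : ZFSet.{0}) : act e (check x) = check x := by
  induction x using ZFSet.inductionOn with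
  | _ x ih =>
    rw [check, ZFSet.mem_wf.fix_eq, act]
    congr 1
    · funext i
      exact ih _ ((equivShrink {y // y ∈ x}).symm i).2
    · funext i
      exact he

theorem act_pairN {e : P ≃o P} (he : e ⊤ = ⊤) (x y : PName P) :
    act e (pairN x y) = pairN (act e x) (act e y) := by
  rw [pairN, pairN, act]
  congr 1
  · funext b
    cases b <;> rfl
  · funext b
    exact he

theorem act_opN {e : P ≃o P} (he : e ⊤ = ⊤) (x y : PName P) :
    act e (opN x y) = opN (act e x) (act e y) := by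
  unfold opN
  rw [act_pairN he, act_pairN he, act_pairN he]

/-! ### Congruence for pairs -/

theorem feq_pairN {x y x' y' : PName P} {p : P} (hx : Feq x x' p) (hy : Feq y y' p) :
    Feq (pairN x y) (pairN x' y') p := by
  rw [feq_iff']
  constructor
  · intro a c ha q hq hqc
    obtain ⟨rfl | rfl, rfl⟩ := el_pairN.1 ha
    · exact ⟨q, le_rfl, x', ⊤, el_pairN.2 ⟨Or.inl rfl, rfl⟩, le_top, hx.mono hq⟩
    · exact ⟨q, le_rfl, y', ⊤, el_pairN.2 ⟨Or.inr rfl, rfl⟩, le_top, hy.mono hq⟩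
  · intro a c ha q hq hqc
    obtain ⟨rfl | rfl, rfl⟩ := el_pairN.1 ha
    · exact ⟨q, le_rfl, x, ⊤, el_pairN.2 ⟨Or.inl rfl, rfl⟩, le_top, hx.mono hq⟩
    · exact ⟨q, le_rfl, y, ⊤, el_pairN.2 ⟨Or.inr rfl, rfl⟩, le_top, hy.mono hq⟩

theorem feq_opN {x y x' y' : PName P} {p : P} (hx : Feq x x' p) (hy : Feq y y' p) :
    Feq (opN x y) (opN x' y') p := feq_pairN (feq_pairN hx hx) (feq_pairN hx hy)

namespace Sys

variable (S : Sys P)

/-! ### Symmetric names -/

theorem hs_iff {x : PName P} : S.HS x ↔ S.Sym x ∧ ∀ z c, El x z c → S.HS z := by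
  cases x with
  | mk ι x c =>
    rw [HS]
    refine and_congr_right fun _ => ?_
    constructor
    · rintro h z d ⟨i, rfl, rfl⟩
      exact h i
    · exact fun h i => h _ _ ⟨i, rfl, rfl⟩

theorem HS.sym {S : Sys P} {x : PName P} (h : S.HS x) : S.Sym x := (S.hs_iff.1 h).1

theorem HS.el {S : Sys P} {x z : PName P} {c : P} (h : S.HS x) (hz : El x z c) : S.HS z :=
  (S.hs_iff.1 h).2 z c hz

theorem Fix.mono {S : Sys P} {H K : Subgroup S.G} {x : PName P} (h : S.Fix H x) (hK : K ≤ H) :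
    S.Fix K x := fun g hg => h g (hK hg)

theorem sym_act {x : PName P} (h : S.Sym x) (g : S.G) : S.Sym (act (S.ac g) x) := by
  obtain ⟨H, hH, h1⟩ := h
  obtain ⟨K, hK, h2⟩ := S.conj H hH g
  refine ⟨K, hK, fun k hk p => ?_⟩
  have h3 := feq_act' (e := S.ac g) (h1 _ (h2 k hk) ((S.ac g)⁻¹ p))
  rw [app_inv, ← act_mul, ← S.ac.map_mul] at h3
  rw [← act_mul, ← S.ac.map_mul]
  have h4 : g * (g⁻¹ * k * g) = k * g := by group
  rwa [h4] at h3

theorem hs_act {x : PName P} (h : S.HS x) (g : S.G) : S.HS (act (S.ac g) x) := by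
  induction x using el_ind with
  | h x ih =>
    refine S.hs_iff.2 ⟨S.sym_act h.sym g, fun z c hz => ?_⟩
    obtain ⟨z, c, hz', rfl, rfl⟩ := el_act.1 hz
    exact ih z c hz' (h.el hz')

theorem inf2 {H K : Subgroup S.G} (hH : H ∈ S.F) (hK : K ∈ S.F) : ∃ L ∈ S.F, L ≤ H ∧ L ≤ K :=
  S.dir H hH K hK

theorem exists_fin {n : ℕ} {v : Fin n → PName P} (h : ∀ i, S.Sym (v i)) :
    ∃ H ∈ S.F, ∀ i, S.Fix H (v i) := by
  induction n with
  | zero =>
    obtain ⟨H0, hH0⟩ := S.ne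
    exact ⟨H0, hH0, fun i => i.elim0⟩
  | succ n ih =>
    obtain ⟨H, hH, h1⟩ := ih (fun i : Fin n => h i.succ)
    obtain ⟨K, hK, h2⟩ := h 0
    obtain ⟨L, hL, h3, h4⟩ := S.inf2 hH hK
    refine ⟨L, hL, fun i => ?_⟩
    refine Fin.cases ?_ (fun i => ?_) i
    · exact Fix.mono h2 h4
    · exact (h1 i).mono h3

theorem tOver_fix {n : ℕ} {s : Fin n ⊕ PName P} (h : TOver {x | S.Sym x} s) :
    ∃ H ∈ S.F, TOver {x | S.Fix H x} s := by
  cases s with
  | inl i =>
    obtain ⟨H0, hH0⟩ := S.ne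
    exact ⟨H0, hH0, TOver.inl i⟩
  | inr a =>
    obtain ⟨H, hH, h1⟩ := h a rfl
    exact ⟨H, hH, tOver_inr.2 h1⟩

theorem exists_over : {n : ℕ} → (φ : Fml (PName P) n) → φ.Over {x | S.Sym x} →
    ∃ H ∈ S.F, φ.Over {x | S.Fix H x}
  | _, .mem s t, h => by
    obtain ⟨H, hH, h1⟩ := S.tOver_fix h.1
    obtain ⟨K, hK, h2⟩ := S.tOver_fix h.2
    obtain ⟨L, hL, h3, h4⟩ := S.inf2 hH hK
    exact ⟨L, hL, h1.mono fun x hx => Fix.mono hx h3, h2.mono fun x hx => Fix.mono hx h4⟩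
  | _, .eq s t, h => by
    obtain ⟨H, hH, h1⟩ := S.tOver_fix h.1
    obtain ⟨K, hK, h2⟩ := S.tOver_fix h.2
    obtain ⟨L, hL, h3, h4⟩ := S.inf2 hH hK
    exact ⟨L, hL, h1.mono fun x hx => Fix.mono hx h3, h2.mono fun x hx => Fix.mono hx h4⟩
  | _, .neg φ, h => exists_over φ h
  | _, .and φ ψ, h => by
    obtain ⟨H, hH, h1⟩ := exists_over φ h.1
    obtain ⟨K, hK, h2⟩ := exists_over ψ h.2
    obtain ⟨L, hL, h3, h4⟩ := S.inf2 hH hK
    exact ⟨L, hL, Fml.Over.mono (φ := φ) (fun x hx => Fix.mono hx h3) h1,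
      Fml.Over.mono (φ := ψ) (fun x hx => Fix.mono hx h4) h2⟩
  | _, .ex φ, h => exists_over φ h

theorem hs_check (x : ZFSet.{0}) : S.HS (check x) := by
  induction x using ZFSet.inductionOn with
  | _ x ih =>
    refine S.hs_iff.2 ⟨?_, fun z c hz => ?_⟩
    · obtain ⟨H, hH⟩ := S.ne
      refine ⟨H, hH, fun g _ p => ?_⟩
      rw [act_check (S.top g)]
      exact Feq.refl _ _
    · obtain ⟨y, hy, rfl, -⟩ := el_check.1 hz
      exact ih y hy

theorem hs_pairN {x y : PName P} (hx : S.HS x) (hy : S.HS y) : S.HS (pairN x y) := by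
  refine S.hs_iff.2 ⟨?_, fun z c hz => ?_⟩
  · obtain ⟨H, hH, h1⟩ := hx.sym
    obtain ⟨K, hK, h2⟩ := hy.sym
    obtain ⟨L, hL, h3, h4⟩ := S.inf2 hH hK
    refine ⟨L, hL, fun g hg p => ?_⟩
    rw [act_pairN (S.top g)]
    exact feq_pairN (h1 g (h3 hg) p) (h2 g (h4 hg) p)
  · obtain ⟨rfl | rfl, -⟩ := el_pairN.1 hz
    · exact hx
    · exact hy

theorem hs_opN {x y : PName P} (hx : S.HS x) (hy : S.HS y) : S.HS (opN x y) :=
  S.hs_pairN (S.hs_pairN hx hx) (S.hs_pairN hx hy)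

/-! ### Orbits -/

theorem el_orb {ι : Type} {f : ι → PName P} {z : PName P} {c : P} :
    El (S.orb ι f) z c ↔ ∃ (g : S.G) (i : ι), z = act (S.ac g) (f i) ∧ c = ⊤ := by
  rw [orb, el_mk]
  constructor
  · rintro ⟨⟨g, i⟩, rfl, rfl⟩
    exact ⟨g, i, rfl, rfl⟩
  · rintro ⟨g, i, rfl, rfl⟩
    exact ⟨(g, i), rfl, rfl⟩

theorem el_orb_one {ι : Type} (f : ι → PName P) (i : ι) : El (S.orb ι f) (f i) ⊤ := by
  refine S.el_orb.2 ⟨1, i, ?_, rfl⟩
  rw [S.ac.map_one, act_one]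

theorem hs_orb {ι : Type} {f : ι → PName P} (h : ∀ i, S.HS (f i)) : S.HS (S.orb ι f) := by
  refine S.hs_iff.2 ⟨?_, fun z c hz => ?_⟩
  · obtain ⟨H, hH⟩ := S.ne
    refine ⟨H, hH, fun g _ p => feq_of_el fun z c => ?_⟩
    rw [el_act, S.el_orb]
    constructor
    · rintro ⟨z, c, hz, rfl, rfl⟩
      obtain ⟨k, i, rfl, rfl⟩ := S.el_orb.1 hz
      refine ⟨g * k, i, ?_, S.top g⟩
      rw [S.ac.map_mul, act_mul]
    · rintro ⟨k, i, rfl, rfl⟩
      refine ⟨_, _, S.el_orb.2 ⟨g⁻¹ * k, i, rfl, rfl⟩, ?_, (S.top g).symm⟩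
      rw [← act_mul, ← S.ac.map_mul, mul_inv_cancel_left]
  · obtain ⟨k, i, rfl, -⟩ := S.el_orb.1 hz
    exact S.hs_act (h i) k

/-! ### The forcing relation -/

theorem FS.mono {S : Sys P} : {n : ℕ} → {φ : Fml (PName P) n} → {v : Fin n → PName P} →
    {p q : P} → S.FS φ v p → q ≤ p → S.FS φ v q
  | _, .mem _ _, _, _, _, h, hq => Fmem.mono h hq
  | _, .eq _ _, _, _, _, h, hq => Feq.mono h hq
  | _, .neg _, _, _, _, h, hq => fun r hr => h r (hr.trans hq)
  | _, .and φ ψ, _, _, _, h, hq => ⟨FS.mono (φ := φ) h.1 hq, FS.mono (φ := ψ) h.2 hq⟩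
  | _, .ex _, _, _, _, h, hq => fun r hr => h r (hr.trans hq)

theorem fs_dense : {n : ℕ} → (φ : Fml (PName P) n) → (v : Fin n → PName P) →
    (p : P) → (∀ q ≤ p, ∃ s ≤ q, S.FS φ v s) → S.FS φ v p
  | _, .mem _ _, _, _, h => fmem_dense h
  | _, .eq _ _, _, _, h => feq_dense h
  | _, .neg φ, v, p, h => fun q hq hf => by
    obtain ⟨s, hs, h1⟩ := h q hq
    exact h1 s le_rfl (FS.mono (φ := φ) hf hs)
  | _, .and φ ψ, v, p, h =>
    ⟨fs_dense φ v p fun q hq => (h q hq).imp fun s hs => ⟨hs.1, hs.2.1⟩,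
      fs_dense ψ v p fun q hq => (h q hq).imp fun s hs => ⟨hs.1, hs.2.2⟩⟩
  | _, .ex φ, v, p, h => fun q hq => by
    obtain ⟨s, hs, h1⟩ := h q hq
    obtain ⟨t, ht, h2⟩ := h1 s le_rfl
    exact ⟨t, ht.trans hs, h2⟩

theorem tv_act (e : P ≃o P) {n : ℕ} (v : Fin n → PName P) (s : Fin n ⊕ PName P) :
    tv (act e ∘ v) (Sum.map id (act e) s) = act e (tv v s) := by
  cases s <;> rfl

theorem comp_cons' {α β : Type*} {n : ℕ} (f : α → β) (v : Fin n → α) (x : α) :
    f ∘ (Fin.cons x v : Fin (n + 1) → α) = Fin.cons (f x) (f ∘ v) := by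
  funext i
  refine Fin.cases ?_ (fun i => ?_) i
  · rfl
  · rfl

/-- The forcing relation is invariant under the automorphisms. -/
theorem fs_act (g : S.G) : {n : ℕ} → (φ : Fml (PName P) n) → (v : Fin n → PName P) → (p : P) →
    (S.FS (φ.map (act (S.ac g))) (act (S.ac g) ∘ v) (S.ac g p) ↔ S.FS φ v p)
  | _, .mem s t, v, p => by
    simp only [Fml.map, FS, tv_act]
    exact fmem_act
  | _, .eq s t, v, p => by
    simp only [Fml.map, FS, tv_act]
    exact feq_act
  | _, .neg φ, v, p => by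
    simp only [Fml.map, FS]
    constructor
    · intro h q hq hf
      exact h (S.ac g q) ((S.ac g).le_iff_le.2 hq) ((fs_act g φ v q).2 hf)
    · intro h q hq hf
      refine h ((S.ac g).symm q) ((OrderIso.symm_apply_le _).2 hq)
        ((fs_act g φ v ((S.ac g).symm q)).1 ?_)
      rwa [OrderIso.apply_symm_apply]
  | _, .and φ ψ, v, p => by
    simp only [Fml.map, FS]
    exact and_congr (fs_act g φ v p) (fs_act g ψ v p)
  | _, .ex φ, v, p => by
    simp only [Fml.map, FS]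
    constructor
    · intro h q hq
      obtain ⟨s, hs, x, hx, hf⟩ := h (S.ac g q) ((S.ac g).le_iff_le.2 hq)
      refine ⟨(S.ac g).symm s, (OrderIso.symm_apply_le _).2 hs, act (S.ac g⁻¹) x,
        S.hs_act hx g⁻¹, ?_⟩
      rw [← fs_act g φ, comp_cons', ← act_mul, ← S.ac.map_mul, mul_inv_cancel, S.ac.map_one,
        act_one, OrderIso.apply_symm_apply]
      exact hf
    · intro h q hq
      obtain ⟨s, hs, x, hx, hf⟩ := h ((S.ac g).symm q) ((OrderIso.symm_apply_le _).2 hq)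
      refine ⟨S.ac g s, (OrderIso.le_symm_apply _).1 hs, act (S.ac g) x, S.hs_act hx g, ?_⟩
      rw [← comp_cons']
      exact (fs_act g φ _ s).2 hf

theorem tv_congr {T : Set (PName P)} {f : PName P → PName P} {p : P}
    (hf : ∀ a ∈ T, Feq a (f a) p) {n : ℕ} {v w : Fin n → PName P}
    (hv : ∀ i, Feq (v i) (w i) p) {s : Fin n ⊕ PName P} (hs : TOver T s) :
    Feq (tv v s) (tv w (Sum.map id f s)) p := by
  cases s with
  | inl i => exact hv i
  | inr a => exact hf a (hs a rfl)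

theorem cons_congr {n : ℕ} {v w : Fin n → PName P} {p : P} (x : PName P)
    (hv : ∀ i, Feq (v i) (w i) p) : ∀ i : Fin (n + 1),
      Feq ((Fin.cons x v : Fin (n + 1) → PName P) i) ((Fin.cons x w : Fin (n + 1) → PName P) i) p := by
  intro i
  refine Fin.cases ?_ (fun i => ?_) i
  · exact Feq.refl _ _
  · exact hv i

/-- Forced equality is a congruence for the forcing relation. -/
theorem fs_congr {T : Set (PName P)} {f : PName P → PName P} : {n : ℕ} →
    (φ : Fml (PName P) n) → φ.Over T → (v w : Fin n → PName P) → (p : P) →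
    (∀ a ∈ T, Feq a (f a) p) → (∀ i, Feq (v i) (w i) p) →
    (S.FS φ v p ↔ S.FS (φ.map f) w p)
  | _, .mem s t, hφ, v, w, p, hf, hv => by
    have h1 := tv_congr hf hv hφ.1
    have h2 := tv_congr hf hv hφ.2
    simp only [Fml.map, FS]
    exact ⟨fun h => fmem_congr h1 h2 h, fun h => fmem_congr h1.symm h2.symm h⟩
  | _, .eq s t, hφ, v, w, p, hf, hv => by
    have h1 := tv_congr hf hv hφ.1
    have h2 := tv_congr hf hv hφ.2
    simp only [Fml.map, FS]
    exact ⟨fun h => feq_trans (feq_trans h1.symm h) h2,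
      fun h => feq_trans (feq_trans h1 h) h2.symm⟩
  | _, .neg φ, hφ, v, w, p, hf, hv => by
    simp only [Fml.map, FS]
    refine forall₂_congr fun q hq => not_congr ?_
    exact fs_congr φ hφ v w q (fun a ha => (hf a ha).mono hq) fun i => (hv i).mono hq
  | _, .and φ ψ, hφ, v, w, p, hf, hv => by
    simp only [Fml.map, FS]
    exact and_congr (fs_congr φ hφ.1 v w p hf hv) (fs_congr ψ hφ.2 v w p hf hv)
  | _, .ex φ, hφ, v, w, p, hf, hv => by
    simp only [Fml.map, FS]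
    refine forall₂_congr fun q hq => exists_congr fun s => and_congr_right fun hs =>
      exists_congr fun x => and_congr_right fun _ => ?_
    exact fs_congr φ hφ _ _ s (fun a ha => (hf a ha).mono (hs.trans hq))
      (cons_congr x fun i => (hv i).mono (hs.trans hq))

/-- Invariance of the forcing relation under the automorphisms that fix the parameters. -/
theorem fs_fix {H : Subgroup S.G} {n : ℕ} (φ : Fml (PName P) (n + 1)) {v : Fin n → PName P}
    (hφ : φ.Over {x | S.Fix H x}) (hv : ∀ i, S.Fix H (v i)) {g : S.G} (hg : g ∈ H)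
    {z : PName P} {p : P} (h : S.FS φ (Fin.cons z v) p) :
    S.FS φ (Fin.cons (act (S.ac g) z) v) (S.ac g p) := by
  have h1 := (S.fs_act g φ (Fin.cons z v) p).2 h
  rw [comp_cons'] at h1
  refine (S.fs_congr (f := act (S.ac g)) φ hφ _ _ _ (fun a ha => (ha g hg _).symm) ?_).2 h1
  intro i
  refine Fin.cases ?_ (fun i => ?_) i
  · exact Feq.refl _ _
  · exact (hv i g hg _).symm

end Sys

end Pool.Agent.R598.SY
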